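import Pool.Agent.helper39.MT.Defs
import Pool.Agent.Lib.PrimeSums

/-!
# Maynard-Tao, model part: bounds for `HP` and for the dyadic sums (modules SC1, SC2, SC3)
-/

namespace Pool.Agent.helper39.MT

open Finset

/-- `n ↦ 1/n` as a monoid homomorphism. -/
noncomputable def invHom : ℕ →* ℝ where
  toFun n := ((n : ℝ))⁻¹
  map_one' := by simp
  map_mul' m n := by push_cast; rw [mul_inv]

lemma sum_factored_le (T : Finset ℕ) (hT : ∀ p ∈ T, p.Prime) (M : Finset ℕ)
    (hM : ∀ m ∈ M, m ∈ Nat.factoredNumbers T) :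
    ∑ m ∈ M, (m : ℝ)⁻¹ ≤ ∏ p ∈ T, (1 - (p : ℝ)⁻¹)⁻¹ := by
  classical
  obtain ⟨h1, h2⟩ := EulerProduct.summable_and_hasSum_factoredNumbers_prod_filter_prime_geometric
    (f := invHom) (fun {p} hp => by
      have h : invHom p = ((p : ℝ))⁻¹ := rfl
      rw [h, Real.norm_of_nonneg (by positivity)]
      exact inv_lt_one_of_one_lt₀ (by exact_mod_cast hp.one_lt)) T
  have hf : T.filter (fun p => p.Prime) = T := filter_true_of_mem hT
  rw [hf] at h2
  have h3 : ∏ p ∈ T, (1 - (p : ℝ)⁻¹)⁻¹ = ∑' m : Nat.factoredNumbers T, (((m : ℕ) : ℝ))⁻¹ :=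
    h2.tsum_eq.symm
  rw [h3]
  have h4 := Finset.sum_subtype_of_mem (s := M) (p := fun n => n ∈ Nat.factoredNumbers T)
    (fun n : ℕ => ((n : ℝ))⁻¹) hM
  rw [← h4]
  exact h2.summable.sum_le_tsum _ (fun m _ => by
    show 0 ≤ (((m : ℕ) : ℝ))⁻¹
    positivity)

lemma totient_prod {W : ℕ} (hW : 0 < W) :
    ((Nat.totient W : ℝ) / W) * ∏ p ∈ W.primeFactors, (1 - (p : ℝ)⁻¹)⁻¹ = 1 := by
  have h := Nat.totient_eq_mul_prod_factors W
  have h' : (Nat.totient W : ℝ) = W * ∏ p ∈ W.primeFactors, (1 - (p : ℝ)⁻¹) := by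
    have h'' := congrArg (fun t : ℚ => (t : ℝ)) h
    push_cast at h''
    exact h''
  have hW' : (W : ℝ) ≠ 0 := by exact_mod_cast hW.ne'
  rw [h', mul_div_cancel_left₀ _ hW', prod_inv_distrib]
  refine mul_inv_cancel₀ ?_
  refine (prod_pos fun p hp => ?_).ne'
  have hpp := Nat.prime_of_mem_primeFactors hp
  rw [sub_pos]
  exact inv_lt_one_of_one_lt₀ (by exact_mod_cast hpp.one_lt)

lemma one_div_sub_one {p : ℕ} (hp : p.Prime) :
    1 / ((p : ℝ) - 1) = (p : ℝ)⁻¹ * (1 - (p : ℝ)⁻¹)⁻¹ := by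
  have h1 : (1 : ℝ) < p := by exact_mod_cast hp.one_lt
  have h0 : (p : ℝ) ≠ 0 := by linarith
  have h2 : (p : ℝ) - 1 ≠ 0 := by linarith
  rw [← mul_inv, mul_sub, mul_one, mul_inv_cancel₀ h0, one_div]

lemma qprod_nonneg {P : Finset ℕ} (hP : ∀ p ∈ P, p.Prime) {S : Finset ℕ} (hS : S ⊆ P) :
    0 ≤ ∏ p ∈ S, (1 / ((p : ℝ) - 1)) := by
  refine prod_nonneg fun p hp => ?_
  have : (1 : ℝ) < p := by exact_mod_cast (hP p (hS hp)).one_lt
  exact div_nonneg zero_le_one (by linarith)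

lemma HP_nonneg {P : Finset ℕ} (hP : ∀ p ∈ P, p.Prime) (x : ℝ) : 0 ≤ HP P x :=
  sum_nonneg fun _ hS => qprod_nonneg hP (mem_powerset.1 (mem_filter.1 hS).1)

lemma PS_prime {W R : ℕ} : ∀ p ∈ PS W R, p.Prime := fun _ hp => (mem_PS.1 hp).2.1

/-- the inner sum: `n ≤ N` whose prime factors outside `W` are exactly `S`. -/
lemma class_sum_le {W N : ℕ} (S : Finset ℕ) (hS : ∀ p ∈ S, p.Prime)
    (hSW : ∀ p ∈ S, ¬ p ∣ W) :
    ∑ n ∈ Icc 1 N with n.primeFactors \ W.primeFactors = S, (n : ℝ)⁻¹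
      ≤ (∏ p ∈ S, (1 / ((p : ℝ) - 1))) * ∏ p ∈ W.primeFactors, (1 - (p : ℝ)⁻¹)⁻¹ := by
  classical
  set T := S ∪ W.primeFactors with hT
  have hdisj : Disjoint S W.primeFactors := by
    rw [disjoint_left]
    intro p hp hp'
    exact hSW p hp (Nat.dvd_of_mem_primeFactors hp')
  set M := (Icc 1 N).filter (fun n => n.primeFactors \ W.primeFactors = S) with hMdef
  have hdvd : ∀ n ∈ M, (∏ p ∈ S, p) ∣ n := by
    intro n hn
    rw [hMdef, mem_filter] at hn
    refine Finset.prod_primes_dvd _ (fun p hp => (hS p hp).prime) (fun p hp => ?_)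
    rw [← hn.2, mem_sdiff] at hp
    exact Nat.dvd_of_mem_primeFactors hp.1
  have hDpos : 0 < ∏ p ∈ S, p := prod_pos fun p hp => (hS p hp).pos
  have hinj : Set.InjOn (fun n => n / ∏ p ∈ S, p) (M : Set ℕ) := by
    intro a ha b hb hab
    have h1 := Nat.div_mul_cancel (hdvd a ha)
    have h2 := Nat.div_mul_cancel (hdvd b hb)
    simp only at hab
    rw [← h1, ← h2, hab]
  have hkey : ∑ n ∈ M, (n : ℝ)⁻¹
      = (∏ p ∈ S, (p : ℝ)⁻¹) * ∑ m ∈ M.image (fun n => n / ∏ p ∈ S, p), (m : ℝ)⁻¹ := by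
    rw [sum_image hinj, mul_sum]
    refine sum_congr rfl fun n hn => ?_
    have h1 := Nat.div_mul_cancel (hdvd n hn)
    have h2 : (n : ℝ) = ((n / ∏ p ∈ S, p : ℕ) : ℝ) * ∏ p ∈ S, (p : ℝ) := by
      rw [← Nat.cast_prod, ← Nat.cast_mul, h1]
    rw [h2, mul_inv, prod_inv_distrib]
    ring
  have hfac : ∀ m ∈ M.image (fun n => n / ∏ p ∈ S, p), m ∈ Nat.factoredNumbers T := by
    intro m hm
    rw [mem_image] at hm
    obtain ⟨n, hn, rfl⟩ := hm
    have hn' := hn
    rw [hMdef, mem_filter, mem_Icc] at hn'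
    have hn0 : n ≠ 0 := by omega
    rw [Nat.mem_factoredNumbers_iff_primeFactors_subset]
    have hd : n / (∏ p ∈ S, p) ∣ n := Nat.div_dvd_of_dvd (hdvd n hn)
    refine ⟨?_, ?_⟩
    · intro h0
      rw [h0, zero_dvd_iff] at hd
      exact hn0 hd
    · refine (Nat.primeFactors_mono hd hn0).trans ?_
      intro p hp
      rw [hT, mem_union]
      by_cases hpW : p ∈ W.primeFactors
      · right; exact hpW
      · left
        rw [← hn'.2, mem_sdiff]
        exact ⟨hp, hpW⟩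
  have hTp : ∀ p ∈ T, p.Prime := by
    intro p hp
    rw [hT, mem_union] at hp
    rcases hp with hp | hp
    · exact hS p hp
    · exact Nat.prime_of_mem_primeFactors hp
  have h5 := sum_factored_le T hTp _ hfac
  rw [hT, prod_union hdisj] at h5
  rw [hkey]
  have h6 : ∏ p ∈ S, (1 / ((p : ℝ) - 1)) = (∏ p ∈ S, (p : ℝ)⁻¹) * ∏ p ∈ S, (1 - (p : ℝ)⁻¹)⁻¹ := by
    rw [← prod_mul_distrib]
    exact prod_congr rfl fun p hp => one_div_sub_one (hS p hp)
  rw [h6, mul_assoc]
  exact mul_le_mul_of_nonneg_left h5 (prod_nonneg fun p _ => by positivity)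

/-- **SC1** -/
theorem HP_lower {W R : ℕ} (hW : 0 < W) {x : ℝ} (h0 : 0 ≤ x) (hx : x ≤ Real.log R) :
    (Nat.totient W : ℝ) / W * x ≤ HP (PS W R) x := by
  classical
  rcases h0.eq_or_lt with rfl | hpos
  · rw [mul_zero]
    exact HP_nonneg PS_prime 0
  have hR : 0 < R := by
    rcases Nat.eq_zero_or_pos R with h | h
    · rw [h] at hx; simp at hx; linarith
    · exact h
  set N := ⌊Real.exp x⌋₊ with hN
  have hNR : N ≤ R := by
    have : Real.exp x ≤ R := by
      rw [← Real.exp_log (show (0 : ℝ) < R by exact_mod_cast hR)]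
      exact Real.exp_le_exp.2 hx
    exact Nat.floor_le_of_le this
  have hNx : (N : ℝ) ≤ Real.exp x := Nat.floor_le (Real.exp_pos x).le
  have h1 : x ≤ ∑ n ∈ Icc 1 N, (n : ℝ)⁻¹ := by
    have h := log_add_one_le_harmonic N
    rw [harmonic_eq_sum_Icc] at h
    push_cast at h
    refine le_trans ?_ h
    rw [Real.le_log_iff_exp_le (by positivity)]
    exact (Nat.lt_floor_add_one _).le
  have h2 : ∑ n ∈ Icc 1 N, (n : ℝ)⁻¹
      = ∑ S ∈ (PS W N).powerset, ∑ n ∈ Icc 1 N with n.primeFactors \ W.primeFactors = S,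
        (n : ℝ)⁻¹ := by
    rw [sum_fiberwise_of_maps_to]
    intro n hn
    rw [mem_powerset]
    intro p hp
    rw [mem_sdiff] at hp
    rw [mem_Icc] at hn
    have hpp := Nat.prime_of_mem_primeFactors hp.1
    have hpd := Nat.dvd_of_mem_primeFactors hp.1
    rw [mem_PS]
    refine ⟨(Nat.le_of_dvd (by omega) hpd).trans hn.2, hpp, fun h => hp.2 ?_⟩
    exact Nat.mem_primeFactors.2 ⟨hpp, h, hW.ne'⟩
  set Q := ∏ p ∈ W.primeFactors, (1 - (p : ℝ)⁻¹)⁻¹ with hQ
  have hQ0 : 0 ≤ Q := by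
    refine prod_nonneg fun p hp => ?_
    have hpp := Nat.prime_of_mem_primeFactors hp
    rw [inv_nonneg, sub_nonneg]
    exact (inv_lt_one_of_one_lt₀ (by exact_mod_cast hpp.one_lt)).le
  have h3 : ∑ n ∈ Icc 1 N, (n : ℝ)⁻¹ ≤ HP (PS W R) x * Q := by
    rw [h2, HP, sum_mul]
    have hsub : (PS W N).powerset.filter (fun S : Finset ℕ => ∑ p ∈ S, Real.log (p : ℝ) ≤ x)
        ⊆ (PS W R).powerset.filter (fun S : Finset ℕ => ∑ p ∈ S, Real.log (p : ℝ) ≤ x) := by
      intro S hS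
      rw [mem_filter, mem_powerset] at hS ⊢
      refine ⟨hS.1.trans ?_, hS.2⟩
      intro p hp
      rw [mem_PS] at hp ⊢
      exact ⟨hp.1.trans hNR, hp.2⟩
    refine le_trans ?_ (sum_le_sum_of_subset_of_nonneg hsub ?_)
    · rw [sum_filter]
      refine sum_le_sum fun S hS => ?_
      rw [mem_powerset] at hS
      have hSp : ∀ p ∈ S, p.Prime := fun p hp => PS_prime p (hS hp)
      split_ifs with hle
      · exact class_sum_le S hSp (fun p hp => (mem_PS.1 (hS hp)).2.2)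
      · refine le_of_eq (sum_eq_zero ?_)
        intro n hn
        exfalso
        rw [mem_filter, mem_Icc] at hn
        refine hle ?_
        have hdvd : (∏ p ∈ S, p) ∣ n := by
          refine Finset.prod_primes_dvd _ (fun p hp => (hSp p hp).prime) (fun p hp => ?_)
          rw [← hn.2, mem_sdiff] at hp
          exact Nat.dvd_of_mem_primeFactors hp.1
        have hle' : ((∏ p ∈ S, p : ℕ) : ℝ) ≤ Real.exp x := by
          refine le_trans ?_ hNx
          exact_mod_cast (Nat.le_of_dvd (by omega) hdvd).trans hn.1.2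
        have : ∑ p ∈ S, Real.log (p : ℝ) = Real.log ((∏ p ∈ S, p : ℕ) : ℝ) := by
          push_cast
          rw [Real.log_prod]
          intro p hp
          exact_mod_cast (hSp p hp).ne_zero
        rw [this]
        rw [Real.log_le_iff_le_exp]
        · exact hle'
        · exact_mod_cast prod_pos fun p hp => (hSp p hp).pos
    · intro S hS _
      exact mul_nonneg (qprod_nonneg PS_prime (mem_powerset.1 (mem_filter.1 hS).1)) hQ0
  have h4 : (Nat.totient W : ℝ) / W * x ≤ (Nat.totient W : ℝ) / W * (HP (PS W R) x * Q) :=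
    mul_le_mul_of_nonneg_left (h1.trans h3) (by positivity)
  have h5 := totient_prod hW
  calc (Nat.totient W : ℝ) / W * x ≤ (Nat.totient W : ℝ) / W * (HP (PS W R) x * Q) := h4
    _ = HP (PS W R) x * ((Nat.totient W : ℝ) / W * Q) := by ring
    _ = HP (PS W R) x := by rw [hQ, h5, mul_one]

lemma sum_telescope (N : ℕ) (hN : 1 ≤ N) :
    ∑ n ∈ Icc 2 N, (1 / ((n : ℝ) - 1) - 1 / n) = 1 - 1 / N := by
  induction N, hN using Nat.le_induction with
  | base => simp
  | succ n hn ih =>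
    rw [← insert_Icc_right_eq_Icc_add_one (by omega : 2 ≤ n + 1), sum_insert (by simp), ih]
    push_cast
    ring

/-- The absolute constant of the upper bound. -/
noncomputable def CHP : ℝ := Real.exp 5

lemma one_le_CHP : 1 ≤ CHP := Real.one_le_exp (by norm_num)

lemma euler_upper (N : ℕ) (hN : 2 ≤ N) :
    ∏ p ∈ Nat.primesLE N, (1 + 1 / ((p : ℝ) - 1)) ≤ CHP * Real.log N := by
  have hpos : ∀ p ∈ Nat.primesLE N, 0 ≤ 1 / ((p : ℝ) - 1) := by
    intro p hp
    have : (1 : ℝ) < p := by exact_mod_cast (Nat.mem_primesLE.1 hp).2.one_lt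
    exact div_nonneg zero_le_one (by linarith)
  have h1 : ∏ p ∈ Nat.primesLE N, (1 + 1 / ((p : ℝ) - 1))
      ≤ Real.exp (∑ p ∈ Nat.primesLE N, 1 / ((p : ℝ) - 1)) := by
    rw [Real.exp_sum]
    refine prod_le_prod (fun p hp => by linarith [hpos p hp]) (fun p _ => ?_)
    rw [add_comm]
    exact Real.add_one_le_exp _
  have h2 : ∑ p ∈ Nat.primesLE N, (1 / ((p : ℝ) - 1) - 1 / p) ≤ 1 := by
    have h3 : ∑ p ∈ Nat.primesLE N, (1 / ((p : ℝ) - 1) - 1 / p)
        ≤ ∑ n ∈ Icc 2 N, (1 / ((n : ℝ) - 1) - 1 / n) := by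
      refine sum_le_sum_of_subset_of_nonneg ?_ ?_
      · intro p hp
        rw [Nat.mem_primesLE] at hp
        rw [mem_Icc]
        exact ⟨hp.2.two_le, hp.1⟩
      · intro n hn _
        rw [mem_Icc] at hn
        have : (2 : ℝ) ≤ n := by exact_mod_cast hn.1
        rw [sub_nonneg]
        exact one_div_le_one_div_of_le (by linarith) (by linarith)
    rw [sum_telescope N (by omega)] at h3
    have : (0 : ℝ) ≤ 1 / N := by positivity
    linarith
  rw [sum_sub_distrib] at h2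
  have h4 := Lib.PrimeSums.sum_inv_le N hN
  have hlog : 0 < Real.log N := Real.log_pos (by exact_mod_cast (by omega : 1 < N))
  have h5 : ∑ p ∈ Nat.primesLE N, 1 / ((p : ℝ) - 1) ≤ 5 + Real.log (Real.log N) := by linarith
  refine h1.trans ((Real.exp_le_exp.2 h5).trans (le_of_eq ?_))
  rw [Real.exp_add, Real.exp_log hlog, CHP]

/-- **SC2** with the explicit constant `CHP`. -/
theorem HP_upper' {W : ℕ} (hW : 0 < W) {x : ℝ} (hx : 1 + Real.log W ≤ x) (R : ℕ) :
    HP (PS W R) x ≤ CHP * ((Nat.totient W : ℝ) / W) * x := by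
  classical
  set N := ⌊Real.exp x⌋₊ with hN
  have hW1 : (1 : ℝ) ≤ W := by exact_mod_cast hW
  have hlW : 0 ≤ Real.log W := Real.log_nonneg hW1
  have hexp : 2 * (W : ℝ) ≤ Real.exp x := by
    calc 2 * (W : ℝ) ≤ Real.exp 1 * W := by
          have := Real.add_one_le_exp 1
          nlinarith
      _ = Real.exp (1 + Real.log W) := by rw [Real.exp_add, Real.exp_log (by linarith)]
      _ ≤ Real.exp x := Real.exp_le_exp.2 hx
  have hNW : 2 * W ≤ N := by
    rw [hN]
    exact Nat.le_floor (by push_cast; exact hexp)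
  have hN2 : 2 ≤ N := by omega
  have hlogN : Real.log N ≤ x := by
    rw [Real.log_le_iff_le_exp (by exact_mod_cast (by omega : 0 < N))]
    exact Nat.floor_le (Real.exp_pos x).le
  -- step 1
  have h1 : HP (PS W R) x ≤ ∏ p ∈ PS W N, (1 + 1 / ((p : ℝ) - 1)) := by
    rw [prod_one_add, HP]
    refine sum_le_sum_of_subset_of_nonneg ?_ ?_
    · intro S hS
      rw [mem_filter, mem_powerset] at hS
      rw [mem_powerset]
      intro p hp
      have hpR := mem_PS.1 (hS.1 hp)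
      rw [mem_PS]
      refine ⟨?_, hpR.2⟩
      have h2 : Real.log (p : ℝ) ≤ x := by
        refine le_trans ?_ hS.2
        refine single_le_sum (f := fun q : ℕ => Real.log (q : ℝ)) (fun q hq => ?_) hp
        exact Real.log_nonneg (by exact_mod_cast (mem_PS.1 (hS.1 hq)).2.1.one_le)
      rw [hN]
      refine Nat.le_floor ?_
      rwa [← Real.log_le_iff_le_exp (by exact_mod_cast hpR.2.1.pos)]
    · intro S hS _
      exact qprod_nonneg PS_prime (mem_powerset.1 hS)
  -- step 2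
  set Q := ∏ p ∈ W.primeFactors, (1 - (p : ℝ)⁻¹)⁻¹ with hQ
  have hQ0 : 0 < Q := by
    refine prod_pos fun p hp => ?_
    have hpp := Nat.prime_of_mem_primeFactors hp
    rw [inv_pos, sub_pos]
    exact inv_lt_one_of_one_lt₀ (by exact_mod_cast hpp.one_lt)
  have h2 : (∏ p ∈ PS W N, (1 + 1 / ((p : ℝ) - 1))) * Q
      = ∏ p ∈ Nat.primesLE N, (1 + 1 / ((p : ℝ) - 1)) := by
    have hQ' : Q = ∏ p ∈ W.primeFactors, (1 + 1 / ((p : ℝ) - 1)) := by
      refine prod_congr rfl fun p hp => ?_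
      have hpp := Nat.prime_of_mem_primeFactors hp
      have h1 : (1 : ℝ) < p := by exact_mod_cast hpp.one_lt
      have h0 : (p : ℝ) ≠ 0 := by linarith
      have h2 : (p : ℝ) - 1 ≠ 0 := by linarith
      rw [inv_eq_one_div, inv_eq_one_div]
      rw [show (1 : ℝ) - 1 / p = (p - 1) / p by field_simp]
      field_simp
      ring
    rw [hQ', ← prod_union]
    · refine prod_congr ?_ fun _ _ => rfl
      ext p
      rw [mem_union, mem_PS, Nat.mem_primeFactors, Nat.mem_primesLE]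
      constructor
      · rintro (⟨h1, h2, _⟩ | ⟨h1, h2, _⟩)
        · exact ⟨h1, h2⟩
        · have := Nat.le_of_dvd hW h2
          exact ⟨by omega, h1⟩
      · rintro ⟨h1, h2⟩
        by_cases hd : p ∣ W
        · right; exact ⟨h2, hd, hW.ne'⟩
        · left; exact ⟨h1, h2, hd⟩
    · rw [disjoint_left]
      intro p hp hp'
      exact (mem_PS.1 hp).2.2 (Nat.dvd_of_mem_primeFactors hp')
  have h3 := euler_upper N hN2
  have h4 : HP (PS W R) x * Q ≤ CHP * x := by
    calc HP (PS W R) x * Q ≤ (∏ p ∈ PS W N, (1 + 1 / ((p : ℝ) - 1))) * Q :=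
          mul_le_mul_of_nonneg_right h1 hQ0.le
      _ ≤ CHP * Real.log N := by rw [h2]; exact h3
      _ ≤ CHP * x := mul_le_mul_of_nonneg_left hlogN (zero_le_one.trans one_le_CHP)
  have h5 := totient_prod hW
  rw [← hQ] at h5
  calc HP (PS W R) x = ((Nat.totient W : ℝ) / W) * (HP (PS W R) x * Q) := by
        linear_combination (-HP (PS W R) x) * h5
    _ ≤ ((Nat.totient W : ℝ) / W) * (CHP * x) := mul_le_mul_of_nonneg_left h4 (by positivity)
    _ = _ := by ring

/-- **SC2** -/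
theorem HP_upper : ∃ C₁ : ℝ, 1 ≤ C₁ ∧ ∀ W : ℕ, 0 < W → ∃ x₀ : ℝ, ∀ x : ℝ, x₀ ≤ x → ∀ R : ℕ,
    HP (PS W R) x ≤ C₁ * ((Nat.totient W : ℝ) / W) * x :=
  ⟨CHP, one_le_CHP, fun W hW => ⟨1 + Real.log W, fun _ hx R => HP_upper' hW hx R⟩⟩

end Pool.Agent.helper39.MT
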