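import Pool.Agent.helper14.MT.Defs2

/-!
# Maynard-Tao, model part: elementary properties of the dyadic step function (module GJ)
-/

namespace Pool.Agent.helper39.MT

open Finset

theorem cJ_nonneg (J j : ℕ) : 0 ≤ cJ J j := by
  rw [cJ]; split_ifs <;> positivity

theorem sum_cJ (J : ℕ) : ∑ j ∈ range (J + 1), cJ J j = 1 := by
  rw [sum_range_succ]
  have h1 : ∑ j ∈ range J, cJ J j = ∑ j ∈ range J, (1 / 2 : ℝ) ^ (j + 1) := by
    refine sum_congr rfl fun j hj => ?_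
    rw [mem_range] at hj
    rw [cJ, if_pos hj, one_div_pow]
  have h2 : ∀ J : ℕ, ∑ j ∈ range J, (1 / 2 : ℝ) ^ (j + 1) = 1 - (1 / 2) ^ J := by
    intro J
    induction J with
    | zero => simp
    | succ n ih => rw [sum_range_succ, ih]; ring
  rw [h1, h2, cJ, if_neg (lt_irrefl J), one_div_pow]
  ring

theorem gJ_nonneg {J : ℕ} {θ : ℝ} (x : ℝ) : 0 ≤ gJ J θ x :=
  sum_nonneg fun j _ => by split_ifs; exacts [cJ_nonneg J j, le_rfl]

theorem gJ_le_one {J : ℕ} {θ : ℝ} (x : ℝ) : gJ J θ x ≤ 1 := by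
  rw [← sum_cJ J, gJ]
  refine sum_le_sum fun j _ => ?_
  split_ifs
  exacts [le_rfl, cJ_nonneg J j]

theorem gJ_anti {J : ℕ} {θ x y : ℝ} (hxy : x ≤ y) : gJ J θ y ≤ gJ J θ x := by
  refine sum_le_sum fun j _ => ?_
  split_ifs with h1 h2 h2
  · exact le_rfl
  · exact absurd (hxy.trans h1) h2
  · exact cJ_nonneg J j
  · exact le_rfl

theorem gJ_eq_one {J : ℕ} {θ x : ℝ} (hθ : 0 ≤ θ) (hx : x ≤ θ) : gJ J θ x = 1 := by
  rw [← sum_cJ J, gJ]
  refine sum_congr rfl fun j _ => ?_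
  rw [if_pos]
  have : (1 : ℝ) ≤ 2 ^ j := one_le_pow₀ (by norm_num)
  nlinarith

theorem gJ_zero {J : ℕ} {θ : ℝ} (hθ : 0 ≤ θ) : gJ J θ 0 = 1 := gJ_eq_one hθ hθ

theorem gJ_eq_zero {J : ℕ} {θ x : ℝ} (hθ : 0 ≤ θ) (hx : 2 ^ J * θ < x) : gJ J θ x = 0 := by
  refine sum_eq_zero fun j hj => ?_
  rw [if_neg]
  rw [mem_range] at hj
  have : (2 : ℝ) ^ j ≤ 2 ^ J := pow_le_pow_right₀ (by norm_num) (by omega)
  nlinarith

end Pool.Agent.helper39.MT
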