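import Pool.Agent.helper22.MT.SC
import Pool.Agent.helper22.MT.GJ

/-!
# Maynard-Tao, model part: sums of the dyadic step function (module SC3)
-/

namespace Pool.Agent.helper39.MT

open Finset

/-- Coefficients of the square of the dyadic step function. -/
noncomputable def cJ' (J j : ℕ) : ℝ := if j < J then 3 / 4 * (1 / 4) ^ j else (1 / 4) ^ J

lemma cJ'_nonneg (J j : ℕ) : 0 ≤ cJ' J j := by
  rw [cJ']; split_ifs <;> positivity

lemma gJ_succ (J : ℕ) (θ x : ℝ) :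
    gJ (J + 1) θ x = (1 / 2) * (if x ≤ θ then 1 else 0) + (1 / 2) * gJ J (2 * θ) x := by
  rw [gJ, sum_range_succ', gJ, mul_sum, add_comm]
  congr 1
  · rw [pow_zero, one_mul, cJ, if_pos (Nat.succ_pos J)]
    split_ifs
    · norm_num
    · norm_num
  · refine sum_congr rfl fun j hj => ?_
    rw [mem_range] at hj
    have e : (2 : ℝ) ^ (j + 1) * θ = 2 ^ j * (2 * θ) := by ring
    rw [e]
    by_cases h : x ≤ 2 ^ j * (2 * θ)
    · rw [if_pos h, if_pos h, cJ, cJ]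
      by_cases hj' : j < J
      · rw [if_pos (by omega), if_pos hj']; field_simp; ring
      · rw [if_neg (by omega), if_neg hj']; field_simp; ring
    · rw [if_neg h, if_neg h]; ring

lemma sq_sum_succ (J : ℕ) (θ x : ℝ) :
    ∑ j ∈ range (J + 1 + 1), (if x ≤ 2 ^ j * θ then cJ' (J + 1) j else 0)
      = (3 / 4) * (if x ≤ θ then 1 else 0)
        + (1 / 4) * ∑ j ∈ range (J + 1), (if x ≤ 2 ^ j * (2 * θ) then cJ' J j else 0) := by
  rw [sum_range_succ', mul_sum, add_comm]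
  congr 1
  · rw [pow_zero, one_mul, cJ', if_pos (Nat.succ_pos J)]
    split_ifs
    · norm_num
    · norm_num
  · refine sum_congr rfl fun j hj => ?_
    rw [mem_range] at hj
    have e : (2 : ℝ) ^ (j + 1) * θ = 2 ^ j * (2 * θ) := by ring
    rw [e]
    by_cases h : x ≤ 2 ^ j * (2 * θ)
    · rw [if_pos h, if_pos h, cJ', cJ']
      by_cases hj' : j < J
      · rw [if_pos (by omega), if_pos hj', pow_succ]; ring
      · rw [if_neg (by omega), if_neg hj', pow_succ]; ring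
    · rw [if_neg h, if_neg h]; ring

/-- The square of the dyadic step function. -/
lemma gJ_sq (J : ℕ) {θ : ℝ} (hθ : 0 ≤ θ) (x : ℝ) :
    gJ J θ x ^ 2 = ∑ j ∈ range (J + 1), if x ≤ 2 ^ j * θ then cJ' J j else 0 := by
  induction J generalizing θ with
  | zero =>
    rw [gJ, zero_add, range_one, sum_singleton, sum_singleton, pow_zero, one_mul, cJ, cJ',
      if_neg (lt_irrefl 0), if_neg (lt_irrefl 0)]
    split_ifs
    · norm_num
    · norm_num
  | succ J ih =>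
    rw [sq_sum_succ, ← ih (by linarith : 0 ≤ 2 * θ), gJ_succ]
    by_cases h : x ≤ θ
    · rw [if_pos h, gJ_eq_one (by linarith : 0 ≤ 2 * θ) (by linarith)]
      norm_num
    · rw [if_neg h]; ring

/-! ## Sums over subsets -/

lemma sum_subtype_powerset (P : Finset ℕ) (f : Finset ℕ → ℝ) :
    ∑ S : Finset P, f (S.map (Function.Embedding.subtype _)) = ∑ S ∈ P.powerset, f S := by
  classical
  refine sum_bij (fun (S : Finset P) _ => S.map (Function.Embedding.subtype _)) ?_ ?_ ?_ ?_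
  · intro S _
    rw [mem_powerset]
    intro p hp
    rw [mem_map] at hp
    obtain ⟨q, _, rfl⟩ := hp
    exact q.2
  · intro S _ T _ h
    exact map_injective _ h
  · intro T hT
    rw [mem_powerset] at hT
    refine ⟨T.subtype (fun p => p ∈ P), mem_univ _, ?_⟩
    exact subtype_map_of_mem (fun p hp => hT hp)
  · intro S _
    rfl

lemma HP_subtype (P : Finset ℕ) (x : ℝ) :
    HP P x = SS (qP (P := P)) (fun S => if ∑ p ∈ S, lP p ≤ x then 1 else 0) := by
  rw [HP, sum_filter, ← sum_subtype_powerset, SS]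
  refine sum_congr rfl fun S _ => ?_
  simp only [sum_map, prod_map, lP, qP, Function.Embedding.subtype_apply, ite_mul, one_mul,
    zero_mul]

lemma qP_nonneg {W R : ℕ} (p : PS W R) : 0 ≤ qP p := by
  have : (1 : ℝ) < ((p : ℕ) : ℝ) := by exact_mod_cast (PS_prime _ p.2).one_lt
  exact div_nonneg zero_le_one (by linarith)

lemma lP_nonneg {W R : ℕ} (p : PS W R) : 0 ≤ lP p :=
  Real.log_nonneg (by exact_mod_cast (PS_prime _ p.2).one_le)

/-- a step function of `l(S)` summed against `q^S`. -/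
lemma sum_step {P : Finset ℕ} (n : ℕ) (a t : ℕ → ℝ) :
    SS (qP (P := P)) (fun S => ∑ j ∈ range n, if ∑ p ∈ S, lP p ≤ t j then a j else 0)
      = ∑ j ∈ range n, a j * HP P (t j) := by
  rw [SS]
  simp_rw [sum_mul]
  rw [sum_comm]
  refine sum_congr rfl fun j _ => ?_
  rw [HP_subtype, SS, mul_sum]
  refine sum_congr rfl fun S _ => ?_
  split_ifs <;> ring

lemma alpha_eq (J : ℕ) (θ : ℝ) (P : Finset ℕ) :
    SS (qP (P := P)) (gP J θ) = ∑ j ∈ range (J + 1), cJ J j * HP P (2 ^ j * θ) :=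
  sum_step (J + 1) (cJ J) (fun j => 2 ^ j * θ)

lemma beta_eq (J : ℕ) {θ : ℝ} (hθ : 0 ≤ θ) (P : Finset ℕ) :
    SS (qP (P := P)) (fun S => gP J θ S ^ 2)
      = ∑ j ∈ range (J + 1), cJ' J j * HP P (2 ^ j * θ) := by
  have h : (fun S : Finset P => gP J θ S ^ 2)
      = fun S => ∑ j ∈ range (J + 1), if ∑ p ∈ S, lP p ≤ 2 ^ j * θ then cJ' J j else 0 := by
    funext S
    exact gJ_sq J hθ _
  rw [h]
  exact sum_step (J + 1) (cJ' J) (fun j => 2 ^ j * θ)

lemma sum_cJ_two (J : ℕ) : ∑ j ∈ range (J + 1), cJ J j * 2 ^ j = (J + 2) / 2 := by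
  rw [sum_range_succ]
  have h1 : ∑ j ∈ range J, cJ J j * 2 ^ j = ∑ j ∈ range J, (1 / 2 : ℝ) := by
    refine sum_congr rfl fun j hj => ?_
    rw [mem_range] at hj
    rw [cJ, if_pos hj, pow_succ]
    field_simp
  rw [h1, sum_const, card_range, nsmul_eq_mul, cJ, if_neg (lt_irrefl J)]
  field_simp

lemma sum_cJ'_two (J : ℕ) : ∑ j ∈ range (J + 1), cJ' J j * 2 ^ j ≤ 2 := by
  rw [sum_range_succ]
  have h1 : ∑ j ∈ range J, cJ' J j * 2 ^ j = ∑ j ∈ range J, 3 / 4 * (1 / 2 : ℝ) ^ j := by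
    refine sum_congr rfl fun j hj => ?_
    rw [mem_range] at hj
    rw [cJ', if_pos hj, mul_assoc, ← mul_pow]
    norm_num
  have h2 : ∀ J : ℕ, ∑ j ∈ range J, 3 / 4 * (1 / 2 : ℝ) ^ j = 3 / 2 - 3 / 2 * (1 / 2) ^ J := by
    intro J
    induction J with
    | zero => simp
    | succ n ih => rw [sum_range_succ, ih]; ring
  rw [h1, h2, cJ', if_neg (lt_irrefl J), ← mul_pow]
  norm_num
  have : (0 : ℝ) ≤ (1 / 2) ^ J := by positivity
  linarith

lemma sum_cJ'_four (J : ℕ) : ∑ j ∈ range (J + 1), cJ' J j * 4 ^ j ≤ J + 1 := by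
  rw [sum_range_succ]
  have h1 : ∑ j ∈ range J, cJ' J j * 4 ^ j = ∑ j ∈ range J, (3 / 4 : ℝ) := by
    refine sum_congr rfl fun j hj => ?_
    rw [mem_range] at hj
    rw [cJ', if_pos hj, mul_assoc, ← mul_pow]
    norm_num
  rw [h1, sum_const, card_range, nsmul_eq_mul, cJ', if_neg (lt_irrefl J), ← mul_pow]
  norm_num
  have : (0 : ℝ) ≤ J := by positivity
  linarith

/-- **SC3**; `hup` is the conclusion of `HP_upper`. -/
theorem dyadic_sums {C₁ : ℝ} (hC₁ : 1 ≤ C₁) {W : ℕ} (hW : 0 < W) {x₀ : ℝ}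
    (hup : ∀ x : ℝ, x₀ ≤ x → ∀ R : ℕ, HP (PS W R) x ≤ C₁ * ((Nat.totient W : ℝ) / W) * x) (J : ℕ) :
    ∃ θ₀ : ℝ, 0 < θ₀ ∧ ∀ θ : ℝ, θ₀ ≤ θ → ∀ R : ℕ, 2 ^ J * θ ≤ Real.log R →
      ((Nat.totient W : ℝ) / W) * θ * (J + 2) / 2 ≤ SS (qP (P := PS W R)) (gP J θ) ∧
      3 / 4 * (((Nat.totient W : ℝ) / W) * θ)
        ≤ SS (qP (P := PS W R)) (fun S => gP J θ S ^ 2) ∧
      SS (qP (P := PS W R)) (fun S => gP J θ S ^ 2) ≤ 2 * C₁ * (((Nat.totient W : ℝ) / W) * θ) ∧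
      SS (qP (P := PS W R)) (fun S => gP J θ S ^ 2 * ∑ p ∈ S, lP p)
        ≤ (J + 1) * C₁ * (((Nat.totient W : ℝ) / W) * θ ^ 2) := by
  refine ⟨max x₀ 1, lt_of_lt_of_le one_pos (le_max_right _ _), fun θ hθ' R hR => ?_⟩
  have hθ : x₀ ≤ θ := (le_max_left _ _).trans hθ'
  have hθ1 : 1 ≤ θ := (le_max_right _ _).trans hθ'
  have hθ0 : 0 ≤ θ := by linarith
  have hκ : 0 ≤ (Nat.totient W : ℝ) / W := by positivity
  have hC0 : 0 ≤ C₁ := zero_le_one.trans hC₁
  have hscale : ∀ j ∈ range (J + 1), x₀ ≤ 2 ^ j * θ ∧ 0 ≤ 2 ^ j * θ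
      ∧ 2 ^ j * θ ≤ Real.log R := by
    intro j hj
    rw [mem_range] at hj
    have h1 : (1 : ℝ) ≤ 2 ^ j := one_le_pow₀ (by norm_num)
    have h2 : (2 : ℝ) ^ j ≤ 2 ^ J := pow_le_pow_right₀ (by norm_num) (by omega)
    refine ⟨?_, by positivity, ?_⟩ <;> nlinarith
  have hlow : ∀ j ∈ range (J + 1), (Nat.totient W : ℝ) / W * (2 ^ j * θ) ≤ HP (PS W R) (2 ^ j * θ) :=
    fun j hj => HP_lower hW (hscale j hj).2.1 (hscale j hj).2.2
  have hupp : ∀ j ∈ range (J + 1),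
      HP (PS W R) (2 ^ j * θ) ≤ C₁ * ((Nat.totient W : ℝ) / W) * (2 ^ j * θ) :=
    fun j hj => hup _ (hscale j hj).1 R
  refine ⟨?_, ?_, ?_, ?_⟩
  · rw [alpha_eq, mul_div_assoc, ← sum_cJ_two, mul_sum]
    refine sum_le_sum fun j hj => ?_
    calc (Nat.totient W : ℝ) / W * θ * (cJ J j * 2 ^ j)
        = cJ J j * ((Nat.totient W : ℝ) / W * (2 ^ j * θ)) := by ring
      _ ≤ _ := mul_le_mul_of_nonneg_left (hlow j hj) (cJ_nonneg J j)
  · rw [beta_eq J hθ0]
    have h0 : (0 : ℕ) ∈ range (J + 1) := by simp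
    have h1 : cJ' J 0 * HP (PS W R) (2 ^ 0 * θ)
        ≤ ∑ j ∈ range (J + 1), cJ' J j * HP (PS W R) (2 ^ j * θ) :=
      single_le_sum (f := fun j => cJ' J j * HP (PS W R) (2 ^ j * θ))
        (fun j _ => mul_nonneg (cJ'_nonneg J j) (HP_nonneg PS_prime _)) h0
    refine le_trans ?_ h1
    have h2 : 3 / 4 ≤ cJ' J 0 := by
      rw [cJ']; split_ifs with h
      · norm_num
      · have : J = 0 := by omega
        rw [this]; norm_num
    have h3 := hlow 0 h0
    rw [pow_zero, one_mul] at h3 ⊢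
    have h4 : 0 ≤ (Nat.totient W : ℝ) / W * θ := by positivity
    exact mul_le_mul h2 h3 h4 (cJ'_nonneg J 0)
  · rw [beta_eq J hθ0]
    calc ∑ j ∈ range (J + 1), cJ' J j * HP (PS W R) (2 ^ j * θ)
        ≤ ∑ j ∈ range (J + 1), (C₁ * ((Nat.totient W : ℝ) / W * θ)) * (cJ' J j * 2 ^ j) := by
          refine sum_le_sum fun j hj => ?_
          calc cJ' J j * HP (PS W R) (2 ^ j * θ)
              ≤ cJ' J j * (C₁ * ((Nat.totient W : ℝ) / W) * (2 ^ j * θ)) :=
                mul_le_mul_of_nonneg_left (hupp j hj) (cJ'_nonneg J j)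
            _ = _ := by ring
      _ = (C₁ * ((Nat.totient W : ℝ) / W * θ)) * ∑ j ∈ range (J + 1), cJ' J j * 2 ^ j := by
          rw [mul_sum]
      _ ≤ (C₁ * ((Nat.totient W : ℝ) / W * θ)) * 2 :=
          mul_le_mul_of_nonneg_left (sum_cJ'_two J) (by positivity)
      _ = _ := by ring
  · have h1 : ∀ S : Finset (PS W R), (gP J θ S ^ 2 * ∑ p ∈ S, lP p) * ∏ p ∈ S, qP p
        ≤ (∑ j ∈ range (J + 1), if ∑ p ∈ S, lP p ≤ 2 ^ j * θ then cJ' J j * (2 ^ j * θ) else 0)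
          * ∏ p ∈ S, qP p := by
      intro S
      refine mul_le_mul_of_nonneg_right ?_ (prod_nonneg fun p _ => qP_nonneg p)
      rw [gP, gJ_sq J hθ0, sum_mul]
      refine sum_le_sum fun j _ => ?_
      split_ifs with h
      · exact mul_le_mul_of_nonneg_left h (cJ'_nonneg J j)
      · rw [zero_mul]
    have h2 : SS (qP (P := PS W R)) (fun S => gP J θ S ^ 2 * ∑ p ∈ S, lP p)
        ≤ SS (qP (P := PS W R)) (fun S => ∑ j ∈ range (J + 1),
          if ∑ p ∈ S, lP p ≤ 2 ^ j * θ then cJ' J j * (2 ^ j * θ) else 0) :=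
      sum_le_sum fun S _ => h1 S
    refine h2.trans ?_
    rw [sum_step (J + 1) (fun j => cJ' J j * (2 ^ j * θ)) (fun j => 2 ^ j * θ)]
    calc ∑ j ∈ range (J + 1), cJ' J j * (2 ^ j * θ) * HP (PS W R) (2 ^ j * θ)
        ≤ ∑ j ∈ range (J + 1), (C₁ * ((Nat.totient W : ℝ) / W * θ ^ 2)) * (cJ' J j * 4 ^ j) := by
          refine sum_le_sum fun j hj => ?_
          calc cJ' J j * (2 ^ j * θ) * HP (PS W R) (2 ^ j * θ)
              ≤ cJ' J j * (2 ^ j * θ) * (C₁ * ((Nat.totient W : ℝ) / W) * (2 ^ j * θ)) :=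
                mul_le_mul_of_nonneg_left (hupp j hj)
                  (mul_nonneg (cJ'_nonneg J j) (hscale j hj).2.1)
            _ = _ := by
                have : (4 : ℝ) ^ j = 2 ^ j * 2 ^ j := by rw [← mul_pow]; norm_num
                rw [this]; ring
      _ = (C₁ * ((Nat.totient W : ℝ) / W * θ ^ 2)) * ∑ j ∈ range (J + 1), cJ' J j * 4 ^ j := by
          rw [mul_sum]
      _ ≤ (C₁ * ((Nat.totient W : ℝ) / W * θ ^ 2)) * (J + 1) :=
          mul_le_mul_of_nonneg_left (sum_cJ'_four J) (by positivity)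
      _ = _ := by ring

end Pool.Agent.helper39.MT
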