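import Pool.Agent.helper14.MT.Defs2

/-!
# Maynard-Tao, model part: the lower bound for the quadratic form (module SD2)
-/

namespace Pool.Agent.helper39.MT

open Finset

section SD2
variable {ι : Type*} [Fintype ι] [DecidableEq ι] {k : ℕ}

private lemma SS_mem_le_aux {w : ι → ℝ} (hw : ∀ p, 0 ≤ w p) {f : Finset ι → ℝ} (hf : ∀ S, 0 ≤ f S)
    (hanti : ∀ S p, p ∉ S → f (insert p S) ≤ f S) (p : ι) :
    SS w (fun S => if p ∈ S then f S else 0) ≤ w p * SS w f := by
  rw [SS, SS]
  have h1 : ∑ S : Finset ι, (if p ∈ S then f S else 0) * ∏ r ∈ S, w r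
      = ∑ S ∈ univ.filter (fun S : Finset ι => p ∈ S), f S * ∏ r ∈ S, w r := by
    rw [sum_filter]
    exact sum_congr rfl fun S _ => by split_ifs <;> ring
  have h2 : ∑ S ∈ univ.filter (fun S : Finset ι => p ∈ S), f S * ∏ r ∈ S, w r
      = ∑ S ∈ univ.filter (fun S : Finset ι => p ∉ S), f (insert p S) * ∏ r ∈ insert p S, w r := by
    refine sum_nbij' (fun S => S.erase p) (fun S => insert p S) ?_ ?_ ?_ ?_ ?_
    · intro S _; simp
    · intro S _; simp
    · intro S hS
      simp only [mem_filter, mem_univ, true_and] at hS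
      exact insert_erase hS
    · intro S hS
      simp only [mem_filter, mem_univ, true_and] at hS
      exact erase_insert hS
    · intro S hS
      simp only [mem_filter, mem_univ, true_and] at hS
      rw [insert_erase hS]
  rw [h1, h2, mul_sum]
  refine le_trans ?_ (sum_le_sum_of_subset_of_nonneg
    (filter_subset (fun S : Finset ι => p ∉ S) univ) ?_)
  · refine sum_le_sum fun S hS => ?_
    simp only [mem_filter, mem_univ, true_and] at hS
    rw [prod_insert hS]
    have h3 : 0 ≤ w p * ∏ r ∈ S, w r := mul_nonneg (hw p) (prod_nonneg fun r _ => hw r)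
    calc f (insert p S) * (w p * ∏ r ∈ S, w r) ≤ f S * (w p * ∏ r ∈ S, w r) :=
          mul_le_mul_of_nonneg_right (hanti S p hS) h3
      _ = _ := by ring
  · intro S _ _
    exact mul_nonneg (hw p) (mul_nonneg (hf S) (prod_nonneg fun r _ => hw r))

/-- sums over sets disjoint from `T`. -/
private lemma SS_disjoint_ge {q : ι → ℝ} (hq : ∀ p, 0 ≤ q p) {g : Finset ι → ℝ}
    (hg : ∀ S, 0 ≤ g S) (hanti : ∀ S p, p ∉ S → g (insert p S) ≤ g S) (T : Finset ι) :
    SS q g * (1 - ∑ p ∈ T, q p)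
      ≤ ∑ S ∈ univ.filter (fun S : Finset ι => Disjoint S T), g S * ∏ p ∈ S, q p := by
  have h1 : ∀ S : Finset ι, g S * ∏ p ∈ S, q p
      ≤ (if Disjoint S T then g S * ∏ p ∈ S, q p else 0)
        + ∑ p ∈ T, (if p ∈ S then g S else 0) * ∏ p ∈ S, q p := by
    intro S
    have hnn : 0 ≤ g S * ∏ p ∈ S, q p := mul_nonneg (hg S) (prod_nonneg fun r _ => hq r)
    have hnn' : ∀ p ∈ T, 0 ≤ (if p ∈ S then g S else 0) * ∏ p ∈ S, q p := by
      intro p _
      refine mul_nonneg ?_ (prod_nonneg fun r _ => hq r)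
      split_ifs
      exacts [hg S, le_rfl]
    by_cases h : Disjoint S T
    · rw [if_pos h]
      linarith [sum_nonneg hnn']
    · rw [if_neg h, zero_add]
      rw [not_disjoint_iff] at h
      obtain ⟨p, hpS, hpT⟩ := h
      have h2 := single_le_sum (f := fun p => (if p ∈ S then g S else 0) * ∏ p ∈ S, q p) hnn' hpT
      simp only [if_pos hpS] at h2
      exact h2
  have h2 := sum_le_sum (s := univ) fun S _ => h1 S
  rw [sum_add_distrib, sum_comm, ← sum_filter] at h2
  have h3 : ∑ p ∈ T, ∑ S : Finset ι, (if p ∈ S then g S else 0) * ∏ p ∈ S, q p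
      ≤ ∑ p ∈ T, q p * SS q g :=
    sum_le_sum fun p _ => SS_mem_le_aux hq hg hanti p
  rw [← sum_mul] at h3
  have h4 : SS q g = ∑ S : Finset ι, g S * ∏ p ∈ S, q p := rfl
  rw [← h4] at h2
  linarith

/-- the labelling obtained from `t` by giving the label `m` to the elements of `S`. -/
private def lab (m : Fin k) (t : ι → Option (Fin k)) (S : Finset ι) (p : ι) : Option (Fin k) :=
  if p ∈ S then some m else t p

private lemma cls_lab_m {m : Fin k} {t : ι → Option (Fin k)} (ht : ∀ p, t p ≠ some m)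
    (S : Finset ι) : cls (lab m t S) m = S := by
  ext p
  simp only [cls, lab, mem_filter, mem_univ, true_and]
  split_ifs with h
  · simp [h]
  · simp [h, ht p]

private lemma cls_lab_ne {m : Fin k} {t : ι → Option (Fin k)} {S : Finset ι}
    (hS : Disjoint S (supp t)) {i : Fin k} (hi : i ≠ m) : cls (lab m t S) i = cls t i := by
  ext p
  simp only [cls, lab, mem_filter, mem_univ, true_and]
  split_ifs with h
  · have h1 : t p = none := by
      by_contra hne
      rw [disjoint_left] at hS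
      exact hS h (by simp [supp, hne])
    rw [h1]
    constructor
    · intro h2
      exact absurd (Option.some_injective _ h2).symm hi
    · intro h2
      cases h2
  · rfl

private lemma supp_lab {m : Fin k} {t : ι → Option (Fin k)} {S : Finset ι} :
    supp (lab m t S) = supp t ∪ S := by
  ext p
  simp only [supp, lab, mem_filter, mem_univ, true_and, mem_union]
  split_ifs with h
  · simp [h]
  · simp [h]

private lemma prod_lab {m : Fin k} {t : ι → Option (Fin k)} (q : ι → ℝ)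
    {S : Finset ι} (hS : Disjoint S (supp t)) :
    ∏ p, Zl m (q p) (lab m t S p) (t p) = ∏ p ∈ S, q p := by
  rw [← prod_subset (subset_univ S)]
  · refine prod_congr rfl fun p hp => ?_
    have h1 : t p = none := by
      by_contra hne
      rw [disjoint_left] at hS
      exact hS hp (by simp [supp, hne])
    simp [Zl, lab, hp, h1]
  · intro p _ hp
    simp only [Zl, lab, if_neg hp]
    rcases h : t p with _ | i
    · simp
    · simp

private lemma Zl_nonneg {m : Fin k} {q : ℝ} (hq : 0 ≤ q) (s t : Option (Fin k)) :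
    0 ≤ Zl m q s t := by
  rcases t with _ | i
  · simp only [Zl]; split_ifs <;> first | exact zero_le_one | exact hq | exact le_rfl
  · simp only [Zl]; split_ifs <;> first | exact zero_le_one | exact le_rfl

private lemma yy_nonneg {l : ι → ℝ} {Λ : ℝ} {g : Finset ι → ℝ} (hg : ∀ S, 0 ≤ g S)
    (σ : ι → Option (Fin k)) : 0 ≤ yy l Λ g σ := by
  rw [yy]
  refine mul_nonneg (prod_nonneg fun i _ => hg _) ?_
  split_ifs
  exacts [zero_le_one, le_rfl]

/-- (D4) -/
theorem zz_ge (m : Fin k) {q l : ι → ℝ} (hq : ∀ p, 0 ≤ q p) (hl : ∀ p, 0 ≤ l p)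
    {g : Finset ι → ℝ} (hg : ∀ S, 0 ≤ g S) (hanti : ∀ S p, p ∉ S → g (insert p S) ≤ g S)
    {Λ Λ₀ : ℝ} (hg0 : ∀ S, Λ₀ < ∑ p ∈ S, l p → g S = 0) (t : ι → Option (Fin k))
    (ht : ∀ p, t p ≠ some m) (htl : ∑ p ∈ supp t, l p ≤ Λ - Λ₀) :
    (∏ i ∈ univ.erase m, g (cls t i)) * (SS q g * (1 - ∑ p ∈ supp t, q p))
      ≤ zz m q (yy l Λ g) t := by
  classical
  have h1 := SS_disjoint_ge hq hg hanti (supp t)
  have hG : 0 ≤ ∏ i ∈ univ.erase m, g (cls t i) := prod_nonneg fun i _ => hg _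
  refine (mul_le_mul_of_nonneg_left h1 hG).trans ?_
  rw [mul_sum, zz]
  set D := univ.filter (fun S : Finset ι => Disjoint S (supp t)) with hD
  have hinj : Set.InjOn (lab m t) (D : Set (Finset ι)) := by
    intro S _ S' _ h
    rw [← cls_lab_m ht S, ← cls_lab_m ht S', h]
  have h2 : ∑ S ∈ D, yy l Λ g (lab m t S) * ∏ p, Zl m (q p) (lab m t S p) (t p)
      ≤ ∑ σ : ι → Option (Fin k), yy l Λ g σ * ∏ p, Zl m (q p) (σ p) (t p) := by
    rw [← sum_image (f := fun σ : ι → Option (Fin k) =>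
      yy l Λ g σ * ∏ p, Zl m (q p) (σ p) (t p)) hinj]
    refine sum_le_sum_of_subset_of_nonneg (subset_univ _) fun σ _ _ => ?_
    exact mul_nonneg (yy_nonneg hg σ) (prod_nonneg fun p _ => Zl_nonneg (hq p) _ _)
  refine le_trans (le_of_eq (sum_congr rfl fun S hS => ?_)) h2
  rw [hD, mem_filter] at hS
  rw [prod_lab q hS.2, yy, ← mul_prod_erase univ (fun i => g (cls (lab m t S) i)) (mem_univ m),
    cls_lab_m ht S]
  have h3 : ∏ i ∈ univ.erase m, g (cls (lab m t S) i) = ∏ i ∈ univ.erase m, g (cls t i) :=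
    prod_congr rfl fun i hi => by rw [cls_lab_ne hS.2 (ne_of_mem_erase hi)]
  rw [h3]
  by_cases h0 : g S = 0
  · rw [h0]; ring
  · have h4 : ∑ p ∈ S, l p ≤ Λ₀ := by
      by_contra h
      exact h0 (hg0 S (not_le.1 h))
    have h5 : ∑ p ∈ supp (lab m t S), l p ≤ Λ := by
      rw [supp_lab, sum_union hS.2.symm]
      linarith
    rw [if_pos h5]
    ring

/-! ### Tuples of sets -/

section tuples
variable {I : Type*} [Fintype I] [DecidableEq I]

private lemma tuple_sum (F : I → Finset ι → ℝ) :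
    ∑ S : I → Finset ι, ∏ i, F i (S i) = ∏ i, ∑ T : Finset ι, F i T := by
  rw [prod_univ_sum]
  rw [Fintype.piFinset_univ]

private lemma tuple_one (F h : Finset ι → ℝ) (i0 : I) :
    ∑ S : I → Finset ι, (∏ i, F (S i)) * h (S i0)
      = (∑ T : Finset ι, F T) ^ (Fintype.card I - 1) * ∑ T : Finset ι, F T * h T := by
  have h1 : ∀ S : I → Finset ι, (∏ i, F (S i)) * h (S i0)
      = ∏ i, (fun i T => F T * if i = i0 then h T else 1) i (S i) := by
    intro S
    simp only
    rw [prod_mul_distrib, Fintype.prod_ite_eq' i0 (fun i => h (S i))]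
  rw [sum_congr rfl fun S _ => h1 S,
    tuple_sum (fun (i : I) T => F T * if i = i0 then h T else 1),
    ← mul_prod_erase univ _ (mem_univ i0), mul_comm]
  congr 1
  · rw [← card_univ, ← card_erase_of_mem (mem_univ i0), ← prod_const]
    refine prod_congr rfl fun i hi => ?_
    simp [ne_of_mem_erase hi]
  · simp

private lemma tuple_two (F h h' : Finset ι → ℝ) {i0 j0 : I} (hij : i0 ≠ j0) :
    ∑ S : I → Finset ι, (∏ i, F (S i)) * (h (S i0) * h' (S j0))
      = (∑ T : Finset ι, F T) ^ (Fintype.card I - 2)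
        * ((∑ T : Finset ι, F T * h T) * ∑ T : Finset ι, F T * h' T) := by
  have h1 : ∀ S : I → Finset ι, (∏ i, F (S i)) * (h (S i0) * h' (S j0))
      = ∏ i, (fun i T => F T * ((if i = i0 then h T else 1) * if i = j0 then h' T else 1))
        i (S i) := by
    intro S
    simp only
    rw [prod_mul_distrib, prod_mul_distrib, Fintype.prod_ite_eq' i0 (fun i => h (S i)),
      Fintype.prod_ite_eq' j0 (fun i => h' (S i))]
  rw [sum_congr rfl fun S _ => h1 S, tuple_sum (fun (i : I) T =>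
      F T * ((if i = i0 then h T else 1) * if i = j0 then h' T else 1)),
    ← mul_prod_erase univ _ (mem_univ i0),
    ← mul_prod_erase (univ.erase i0) _ (mem_erase.2 ⟨hij.symm, mem_univ j0⟩)]
  have h2 : ∏ i ∈ (univ.erase i0).erase j0,
      ∑ T : Finset ι, F T * ((if i = i0 then h T else 1) * if i = j0 then h' T else 1)
      = (∑ T : Finset ι, F T) ^ (Fintype.card I - 2) := by
    have hc : #((univ.erase i0).erase j0) = Fintype.card I - 2 := by
      rw [card_erase_of_mem (mem_erase.2 ⟨hij.symm, mem_univ j0⟩),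
        card_erase_of_mem (mem_univ i0), card_univ]
      omega
    rw [← hc, ← prod_const]
    refine prod_congr rfl fun i hi => ?_
    have h3 : i ≠ j0 := ne_of_mem_erase hi
    have h4 : i ≠ i0 := ne_of_mem_erase (mem_of_mem_erase hi)
    simp [h3, h4]
  rw [h2]
  simp only [if_true, if_neg hij, if_neg hij.symm, mul_one, one_mul]
  ring

end tuples

/-! ### Labellings and tuples of sets -/

/-- The labels different from `m`. -/
private abbrev Im (m : Fin k) := {i : Fin k // i ≠ m}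

private lemma supp_eq_biUnion {m : Fin k} {t : ι → Option (Fin k)} (ht : ∀ p, t p ≠ some m) :
    supp t = univ.biUnion (fun i : Im m => cls t (i : Fin k)) := by
  ext p
  simp only [supp, cls, mem_filter, mem_univ, true_and, mem_biUnion]
  constructor
  · intro h
    rcases h' : t p with _ | i
    · exact absurd h' h
    · refine ⟨⟨i, ?_⟩, rfl⟩
      rintro rfl
      exact ht p h'
  · rintro ⟨i, hi⟩ h
    rw [h] at hi
    cases hi

private lemma cls_disjoint (m : Fin k) (t : ι → Option (Fin k)) :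
    Set.PairwiseDisjoint ((univ : Finset (Im m)) : Set (Im m))
      (fun i : Im m => cls t (i : Fin k)) := by
  intro i _ j _ hij
  simp only [Function.onFun]
  rw [disjoint_left]
  intro p hp hp'
  simp only [cls, mem_filter, mem_univ, true_and] at hp hp'
  rw [hp] at hp'
  exact hij (Subtype.ext (Option.some_injective _ hp'))

open Classical in
/-- the labelling of a tuple of sets. -/
private noncomputable def tup (m : Fin k) (S : Im m → Finset ι) (p : ι) : Option (Fin k) :=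
  if h : ∃ i : Im m, p ∈ S i then some (h.choose : Fin k) else none

private lemma tup_ne (m : Fin k) (S : Im m → Finset ι) (p : ι) : tup m S p ≠ some m := by
  rw [tup]
  split_ifs with h
  · intro h'
    exact h.choose.2 (Option.some_injective _ h')
  · simp

private lemma cls_tup {m : Fin k} {S : Im m → Finset ι} (hS : ∀ i j, i ≠ j → Disjoint (S i) (S j))
    (i : Im m) : cls (tup m S) (i : Fin k) = S i := by
  ext p
  simp only [cls, mem_filter, mem_univ, true_and, tup]
  split_ifs with h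
  · constructor
    · intro h'
      have h2 : h.choose = i := Subtype.ext (Option.some_injective _ h')
      rw [← h2]
      exact h.choose_spec
    · intro h'
      have h2 : h.choose = i := by
        by_contra hne
        exact (disjoint_left.1 (hS _ _ hne)) h.choose_spec h'
      rw [h2]
  · constructor
    · intro h'
      cases h'
    · intro h'
      exact absurd ⟨i, h'⟩ h

private lemma prod_Hl {m : Fin k} {a : ι → ℝ} {t : ι → Option (Fin k)} (ht : ∀ p, t p ≠ some m) :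
    ∏ p, Hl m 1 (a p) (t p) = ∏ i : Im m, ∏ p ∈ cls t (i : Fin k), a p := by
  rw [← prod_biUnion (cls_disjoint m t), ← supp_eq_biUnion ht, ← prod_subset (subset_univ (supp t))]
  · refine prod_congr rfl fun p hp => ?_
    rcases h : t p with _ | i
    · simp [supp, h] at hp
    · have h1 : i ≠ m := by
        rintro rfl
        exact ht p h
      simp [Hl, h1]
  · intro p _ hp
    rcases h : t p with _ | i
    · simp [Hl]
    · simp [supp, h] at hp

/-- the error in the passage from disjoint tuples to all tuples. -/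
private noncomputable def Er (m : Fin k) (q l : ι → ℝ) (Δ : ℝ) (S : Im m → Finset ι) : ℝ :=
  ∑ i : Im m, ∑ j ∈ univ.erase i, ∑ p, ((if p ∈ S i then 1 else 0) * (if p ∈ S j then 1 else 0))
    + ∑ i : Im m, (∑ p ∈ S i, l p) / Δ + ∑ i : Im m, 2 * ∑ p, (if p ∈ S i then q p else 0)

private lemma pointwise (m : Fin k) {q l : ι → ℝ} (hq : ∀ p, 0 ≤ q p) (hl : ∀ p, 0 ≤ l p) {Δ : ℝ}
    (hΔ : 0 < Δ) (S : Im m → Finset ι)
    (h : ¬ ((∀ i j, i ≠ j → Disjoint (S i) (S j)) ∧ ∑ i : Im m, ∑ p ∈ S i, l p ≤ Δ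
      ∧ ∑ i : Im m, ∑ p ∈ S i, q p ≤ 1)) : 1 - Er m q l Δ S ≤ 0 := by
  have e1 : ∀ i : Im m, ∀ j ∈ univ.erase i, 0 ≤ ∑ p, (((if p ∈ S i then 1 else 0) : ℝ)
      * (if p ∈ S j then 1 else 0)) := by
    intro i j _
    refine sum_nonneg fun p _ => ?_
    split_ifs <;> norm_num
  have E1 : 0 ≤ ∑ i : Im m, ∑ j ∈ univ.erase i,
      ∑ p, (((if p ∈ S i then 1 else 0) : ℝ) * (if p ∈ S j then 1 else 0)) :=
    sum_nonneg fun i _ => sum_nonneg (e1 i)
  have E2 : 0 ≤ ∑ i : Im m, (∑ p ∈ S i, l p) / Δ :=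
    sum_nonneg fun i _ => div_nonneg (sum_nonneg fun p _ => hl p) hΔ.le
  have e3 : ∀ i : Im m, ∑ p, (if p ∈ S i then q p else 0) = ∑ p ∈ S i, q p := by
    intro i
    rw [← sum_filter]
    simp
  have E3 : ∑ i : Im m, 2 * ∑ p, (if p ∈ S i then q p else 0)
      = 2 * ∑ i : Im m, ∑ p ∈ S i, q p := by
    rw [mul_sum]
    exact sum_congr rfl fun i _ => by rw [e3]
  have E3' : 0 ≤ ∑ i : Im m, ∑ p ∈ S i, q p := sum_nonneg fun i _ => sum_nonneg fun p _ => hq p
  rw [Er, E3]
  by_cases hd : ∀ i j, i ≠ j → Disjoint (S i) (S j)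
  · by_cases hl' : ∑ i : Im m, ∑ p ∈ S i, l p ≤ Δ
    · have hx : 1 < ∑ i : Im m, ∑ p ∈ S i, q p := by
        by_contra hx
        exact h ⟨hd, hl', not_lt.1 hx⟩
      linarith
    · have : 1 < ∑ i : Im m, (∑ p ∈ S i, l p) / Δ := by
        rw [← sum_div, one_lt_div hΔ]
        exact not_le.1 hl'
      linarith
  · push Not at hd
    obtain ⟨i, j, hij, hd⟩ := hd
    rw [not_disjoint_iff] at hd
    obtain ⟨p, hpi, hpj⟩ := hd
    have h1 : (1 : ℝ) ≤ ∑ p, (((if p ∈ S i then 1 else 0) : ℝ) * (if p ∈ S j then 1 else 0)) := by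
      refine le_trans ?_ (single_le_sum (f := fun p => ((if p ∈ S i then 1 else 0) : ℝ)
        * (if p ∈ S j then 1 else 0)) (fun p _ => by split_ifs <;> norm_num) (mem_univ p))
      simp [hpi, hpj]
    have h2 : (1 : ℝ) ≤ ∑ j ∈ univ.erase i,
        ∑ p, (((if p ∈ S i then 1 else 0) : ℝ) * (if p ∈ S j then 1 else 0)) :=
      h1.trans (single_le_sum (f := fun j => ∑ p, (((if p ∈ S i then 1 else 0) : ℝ)
        * (if p ∈ S j then 1 else 0))) (e1 i) (mem_erase.2 ⟨hij.symm, mem_univ j⟩))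
    have h3 : (1 : ℝ) ≤ ∑ i : Im m, ∑ j ∈ univ.erase i,
        ∑ p, (((if p ∈ S i then 1 else 0) : ℝ) * (if p ∈ S j then 1 else 0)) :=
      h2.trans (single_le_sum (f := fun i => ∑ j ∈ univ.erase i, ∑ p,
        (((if p ∈ S i then 1 else 0) : ℝ) * (if p ∈ S j then 1 else 0)))
        (fun i _ => sum_nonneg (e1 i)) (mem_univ i))
    linarith

private lemma card_Im (m : Fin k) : Fintype.card (Im m) = k - 1 := by
  rw [Fintype.card_subtype_compl, Fintype.card_fin, Fintype.card_subtype_eq]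

private lemma sum_Er (hk : 2 ≤ k) (m : Fin k) {q a l : ι → ℝ} (ha : ∀ p, 0 ≤ a p)
    (haq : ∀ p, a p ≤ q p) (hl : ∀ p, 0 ≤ l p) {g : Finset ι → ℝ} (hg : ∀ S, 0 ≤ g S)
    (hanti : ∀ S p, p ∉ S → g (insert p S) ≤ g S) {Δ : ℝ} (hΔ : 0 < Δ) :
    ∑ S : Im m → Finset ι, (∏ i, (g (S i) ^ 2 * ∏ p ∈ S i, a p)) * Er m q l Δ S
      ≤ ((k : ℝ) ^ 2 + 2 * k) * (∑ p, q p ^ 2) * SS a (fun S => g S ^ 2) ^ (k - 1)
        + k * SS a (fun S => g S ^ 2) ^ (k - 2) * SS a (fun S => g S ^ 2 * ∑ p ∈ S, l p) / Δ := by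
  classical
  have hq : ∀ p, 0 ≤ q p := fun p => (ha p).trans (haq p)
  set F : Finset ι → ℝ := fun T => g T ^ 2 * ∏ p ∈ T, a p with hF
  set β := SS a (fun S => g S ^ 2) with hβ
  have hβF : ∑ T : Finset ι, F T = β := rfl
  have hF0 : ∀ T, 0 ≤ F T := fun T => mul_nonneg (sq_nonneg _) (prod_nonneg fun p _ => ha p)
  have hβ0 : 0 ≤ β := by rw [← hβF]; exact sum_nonneg fun T _ => hF0 T
  have hpow : ∀ p, ∑ T : Finset ι, F T * (if p ∈ T then 1 else 0) ≤ q p * β := by
    intro p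
    have h1 := SS_mem_le_aux ha (f := fun T => g T ^ 2) (fun T => sq_nonneg _)
      (fun S p hp => pow_le_pow_left₀ (hg _) (hanti S p hp) 2) p
    have h2 : ∑ T : Finset ι, F T * (if p ∈ T then 1 else 0)
        = SS a (fun S => if p ∈ S then g S ^ 2 else 0) := by
      rw [SS]
      refine sum_congr rfl fun T _ => ?_
      rw [hF]
      split_ifs <;> ring
    rw [h2]
    exact h1.trans (mul_le_mul_of_nonneg_right (haq p) hβ0)
  have hpow0 : ∀ p, 0 ≤ ∑ T : Finset ι, F T * (if p ∈ T then 1 else 0) := fun p =>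
    sum_nonneg fun T _ => mul_nonneg (hF0 T) (by split_ifs <;> norm_num)
  have hc := card_Im m
  have hkr : (2 : ℝ) ≤ k := by exact_mod_cast hk
  have hcr : ((Fintype.card (Im m) : ℕ) : ℝ) ≤ k := by rw [hc]; exact_mod_cast Nat.sub_le k 1
  have hQ0 : 0 ≤ ∑ p, q p ^ 2 := sum_nonneg fun p _ => sq_nonneg _
  -- first part
  have P1 : ∑ S : Im m → Finset ι, (∏ i, F (S i)) * (∑ i : Im m, ∑ j ∈ univ.erase i,
      ∑ p, ((if p ∈ S i then 1 else 0) * (if p ∈ S j then 1 else 0)))
      ≤ (k : ℝ) ^ 2 * (∑ p, q p ^ 2) * β ^ (k - 1) := by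
    have h1 : ∑ S : Im m → Finset ι, (∏ i, F (S i)) * (∑ i : Im m, ∑ j ∈ univ.erase i,
        ∑ p, ((if p ∈ S i then 1 else 0) * (if p ∈ S j then 1 else 0)))
        = ∑ i : Im m, ∑ j ∈ univ.erase i, ∑ p, ∑ S : Im m → Finset ι, (∏ i, F (S i))
          * ((if p ∈ S i then 1 else 0) * (if p ∈ S j then 1 else 0)) := by
      simp_rw [mul_sum]
      rw [sum_comm]
      refine sum_congr rfl fun i _ => ?_
      rw [sum_comm]
      refine sum_congr rfl fun j _ => ?_
      rw [sum_comm]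
    rw [h1]
    have h2 : ∀ i : Im m, ∀ j ∈ univ.erase i, ∑ p, ∑ S : Im m → Finset ι, (∏ i, F (S i))
          * ((if p ∈ S i then 1 else 0) * (if p ∈ S j then 1 else 0))
        ≤ (∑ p, q p ^ 2) * β ^ (k - 1) := by
      intro i j hj
      have hij : i ≠ j := (ne_of_mem_erase hj).symm
      have hk3 : 2 ≤ Fintype.card (Im m) := by
        have : 1 < Fintype.card (Im m) := Fintype.one_lt_card_iff.2 ⟨i, j, hij⟩
        omega
      rw [sum_mul]
      refine sum_le_sum fun p _ => ?_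
      rw [tuple_two F (fun T => if p ∈ T then 1 else 0) (fun T => if p ∈ T then 1 else 0) hij,
        hβF, hc]
      have h3 : (∑ T : Finset ι, F T * (if p ∈ T then 1 else 0))
          * (∑ T : Finset ι, F T * (if p ∈ T then 1 else 0)) ≤ (q p * β) * (q p * β) :=
        mul_le_mul (hpow p) (hpow p) (hpow0 p) (mul_nonneg (hq p) hβ0)
      calc β ^ (k - 1 - 2) * ((∑ T : Finset ι, F T * (if p ∈ T then 1 else 0))
            * (∑ T : Finset ι, F T * (if p ∈ T then 1 else 0)))
          ≤ β ^ (k - 1 - 2) * ((q p * β) * (q p * β)) :=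
            mul_le_mul_of_nonneg_left h3 (pow_nonneg hβ0 _)
        _ = q p ^ 2 * (β ^ (k - 1 - 2) * β ^ 2) := by ring
        _ = q p ^ 2 * β ^ (k - 1) := by
            rw [← pow_add]
            congr 2
            rw [hc] at hk3
            omega
    calc ∑ i : Im m, ∑ j ∈ univ.erase i, ∑ p, ∑ S : Im m → Finset ι, (∏ i, F (S i))
            * ((if p ∈ S i then 1 else 0) * (if p ∈ S j then 1 else 0))
        ≤ ∑ i : Im m, ∑ j ∈ univ.erase i, (∑ p, q p ^ 2) * β ^ (k - 1) :=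
          sum_le_sum fun i _ => sum_le_sum (h2 i)
      _ ≤ ∑ _i : Im m, (k : ℝ) * ((∑ p, q p ^ 2) * β ^ (k - 1)) := by
          refine sum_le_sum fun i _ => ?_
          rw [sum_const, nsmul_eq_mul]
          refine mul_le_mul_of_nonneg_right ?_ (mul_nonneg hQ0 (pow_nonneg hβ0 _))
          refine le_trans ?_ hcr
          exact_mod_cast (card_le_card (erase_subset i univ)).trans_eq card_univ
      _ ≤ (k : ℝ) * ((k : ℝ) * ((∑ p, q p ^ 2) * β ^ (k - 1))) := by
          rw [sum_const, nsmul_eq_mul, card_univ]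
          exact mul_le_mul_of_nonneg_right hcr (by positivity)
      _ = _ := by ring
  -- second part
  have P2 : ∑ S : Im m → Finset ι, (∏ i, F (S i)) * (∑ i : Im m, (∑ p ∈ S i, l p) / Δ)
      ≤ k * β ^ (k - 2) * SS a (fun S => g S ^ 2 * ∑ p ∈ S, l p) / Δ := by
    set μ := SS a (fun S => g S ^ 2 * ∑ p ∈ S, l p) with hμ
    have hμF : ∑ T : Finset ι, F T * ((∑ p ∈ T, l p) / Δ) = μ / Δ := by
      rw [hμ, SS, sum_div]
      refine sum_congr rfl fun T _ => ?_
      rw [hF]
      ring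
    have hμ0 : 0 ≤ μ / Δ := by
      rw [← hμF]
      exact sum_nonneg fun T _ => mul_nonneg (hF0 T)
        (div_nonneg (sum_nonneg fun p _ => hl p) hΔ.le)
    have h1 : ∑ S : Im m → Finset ι, (∏ i, F (S i)) * (∑ i : Im m, (∑ p ∈ S i, l p) / Δ)
        = ∑ i : Im m, β ^ (k - 2) * (μ / Δ) := by
      simp_rw [mul_sum]
      rw [sum_comm]
      refine sum_congr rfl fun i _ => ?_
      rw [tuple_one F (fun T => (∑ p ∈ T, l p) / Δ) i, hβF, hμF, hc]
      congr 2
    rw [h1, sum_const, nsmul_eq_mul, card_univ]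
    calc (Fintype.card (Im m) : ℝ) * (β ^ (k - 2) * (μ / Δ)) ≤ k * (β ^ (k - 2) * (μ / Δ)) :=
          mul_le_mul_of_nonneg_right hcr (mul_nonneg (pow_nonneg hβ0 _) hμ0)
      _ = _ := by ring
  -- third part
  have P3 : ∑ S : Im m → Finset ι, (∏ i, F (S i))
      * (∑ i : Im m, 2 * ∑ p, (if p ∈ S i then q p else 0))
      ≤ 2 * k * (∑ p, q p ^ 2) * β ^ (k - 1) := by
    have h1 : ∑ S : Im m → Finset ι, (∏ i, F (S i))
        * (∑ i : Im m, 2 * ∑ p, (if p ∈ S i then q p else 0))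
        = ∑ i : Im m, ∑ p, 2 * q p * ∑ S : Im m → Finset ι, (∏ i, F (S i))
          * (if p ∈ S i then 1 else 0) := by
      simp_rw [mul_sum]
      rw [sum_comm]
      refine sum_congr rfl fun i _ => ?_
      rw [sum_comm]
      refine sum_congr rfl fun p _ => ?_
      refine sum_congr rfl fun S _ => ?_
      split_ifs <;> ring
    rw [h1]
    have h2 : ∀ i : Im m, ∑ p, 2 * q p * ∑ S : Im m → Finset ι, (∏ i, F (S i))
          * (if p ∈ S i then 1 else 0) ≤ 2 * (∑ p, q p ^ 2) * β ^ (k - 1) := by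
      intro i
      rw [mul_assoc, sum_mul, mul_sum]
      refine sum_le_sum fun p _ => ?_
      rw [tuple_one F (fun T => if p ∈ T then 1 else 0) i, hβF, hc]
      calc 2 * q p * (β ^ (k - 1 - 1) * ∑ T : Finset ι, F T * (if p ∈ T then 1 else 0))
          ≤ 2 * q p * (β ^ (k - 1 - 1) * (q p * β)) :=
            mul_le_mul_of_nonneg_left (mul_le_mul_of_nonneg_left (hpow p) (pow_nonneg hβ0 _))
              (mul_nonneg zero_le_two (hq p))
        _ = 2 * (q p ^ 2 * (β ^ (k - 1 - 1) * β)) := by ring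
        _ = 2 * (q p ^ 2 * β ^ (k - 1)) := by
            rw [← pow_succ]
            congr 3
            omega
    calc ∑ i : Im m, ∑ p, 2 * q p * ∑ S : Im m → Finset ι, (∏ i, F (S i))
            * (if p ∈ S i then 1 else 0)
        ≤ ∑ _i : Im m, 2 * (∑ p, q p ^ 2) * β ^ (k - 1) := sum_le_sum fun i _ => h2 i
      _ ≤ k * (2 * (∑ p, q p ^ 2) * β ^ (k - 1)) := by
          rw [sum_const, nsmul_eq_mul, card_univ]
          exact mul_le_mul_of_nonneg_right hcr (by positivity)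
      _ = _ := by ring
  have hsplit : ∑ S : Im m → Finset ι, (∏ i, F (S i)) * Er m q l Δ S
      = ∑ S : Im m → Finset ι, (∏ i, F (S i)) * (∑ i : Im m, ∑ j ∈ univ.erase i,
          ∑ p, ((if p ∈ S i then 1 else 0) * (if p ∈ S j then 1 else 0)))
        + ∑ S : Im m → Finset ι, (∏ i, F (S i)) * (∑ i : Im m, (∑ p ∈ S i, l p) / Δ)
        + ∑ S : Im m → Finset ι, (∏ i, F (S i))
          * (∑ i : Im m, 2 * ∑ p, (if p ∈ S i then q p else 0)) := by
    rw [← sum_add_distrib, ← sum_add_distrib]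
    refine sum_congr rfl fun S _ => ?_
    rw [Er]
    ring
  have hgoal : ∑ S : Im m → Finset ι, (∏ i, F (S i)) * Er m q l Δ S
      ≤ ((k : ℝ) ^ 2 + 2 * k) * (∑ p, q p ^ 2) * β ^ (k - 1)
        + k * β ^ (k - 2) * SS a (fun S => g S ^ 2 * ∑ p ∈ S, l p) / Δ := by
    rw [hsplit]
    linarith
  exact hgoal

/-- (D5) -/
theorem form_ge (hk : 2 ≤ k) (m : Fin k) {q a l : ι → ℝ} (ha : ∀ p, 0 ≤ a p)
    (haq : ∀ p, a p ≤ q p) (hl : ∀ p, 0 ≤ l p)
    {g : Finset ι → ℝ} (hg : ∀ S, 0 ≤ g S) (hanti : ∀ S p, p ∉ S → g (insert p S) ≤ g S)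
    {Λ Λ₀ : ℝ} (hΛ : Λ₀ < Λ) (hg0 : ∀ S, Λ₀ < ∑ p ∈ S, l p → g S = 0) :
    SS q g ^ 2 * ((1 - ((k : ℝ) ^ 2 + 2 * k) * ∑ p, q p ^ 2) * SS a (fun S => g S ^ 2) ^ (k - 1)
        - k * SS a (fun S => g S ^ 2) ^ (k - 2) * SS a (fun S => g S ^ 2 * ∑ p ∈ S, l p) / (Λ - Λ₀))
      ≤ ∑ t : ι → Option (Fin k), (∏ p, Hl m 1 (a p) (t p)) * zz m q (yy l Λ g) t ^ 2 := by
  classical
  have hq : ∀ p, 0 ≤ q p := fun p => (ha p).trans (haq p)
  have hΔ : 0 < Λ - Λ₀ := by linarith
  set A := SS q g with hA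
  have hA0 : 0 ≤ A := sum_nonneg fun S _ => mul_nonneg (hg S) (prod_nonneg fun p _ => hq p)
  set term : (ι → Option (Fin k)) → ℝ :=
    fun t => (∏ p, Hl m 1 (a p) (t p)) * zz m q (yy l Λ g) t ^ 2 with hterm
  have hHl : ∀ (p : ι) (s : Option (Fin k)), 0 ≤ Hl m 1 (a p) s := by
    intro p s
    rcases s with _ | i
    · simp [Hl]
    · simp only [Hl]
      split_ifs
      · exact le_rfl
      · rw [one_mul]; exact ha p
  have hterm0 : ∀ t, 0 ≤ term t := fun t =>
    mul_nonneg (prod_nonneg fun p _ => hHl p _) (sq_nonneg _)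
  set D := univ.filter (fun S : Im m → Finset ι => ∀ i j, i ≠ j → Disjoint (S i) (S j)) with hD
  have hinj : Set.InjOn (tup m) (D : Set (Im m → Finset ι)) := by
    intro S hS S' hS' h
    simp only [hD, coe_filter, mem_univ, true_and, Set.mem_setOf_eq] at hS hS'
    funext i
    rw [← cls_tup hS i, ← cls_tup hS' i, h]
  have h1 : ∑ S ∈ D, term (tup m S) ≤ ∑ t, term t := by
    rw [← sum_image (f := term) hinj]
    exact sum_le_sum_of_subset_of_nonneg (subset_univ _) fun t _ _ => hterm0 t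
  refine le_trans ?_ h1
  -- pointwise
  have h2 : ∀ S : Im m → Finset ι,
      A ^ 2 * ((∏ i, (g (S i) ^ 2 * ∏ p ∈ S i, a p)) * (1 - Er m q l (Λ - Λ₀) S))
        ≤ if S ∈ D then term (tup m S) else 0 := by
    intro S
    have hP0 : 0 ≤ ∏ i, (g (S i) ^ 2 * ∏ p ∈ S i, a p) :=
      prod_nonneg fun i _ => mul_nonneg (sq_nonneg _) (prod_nonneg fun p _ => ha p)
    by_cases hc : (∀ i j, i ≠ j → Disjoint (S i) (S j)) ∧ ∑ i : Im m, ∑ p ∈ S i, l p ≤ Λ - Λ₀
        ∧ ∑ i : Im m, ∑ p ∈ S i, q p ≤ 1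
    · obtain ⟨hd, hl', hx⟩ := hc
      have hSD : S ∈ D := by rw [hD, mem_filter]; exact ⟨mem_univ _, hd⟩
      rw [if_pos hSD]
      have ht := tup_ne m S
      have hcl : ∀ i : Im m, cls (tup m S) (i : Fin k) = S i := cls_tup hd
      have hsup : ∀ f : ι → ℝ, ∑ p ∈ supp (tup m S), f p = ∑ i : Im m, ∑ p ∈ S i, f p := by
        intro f
        rw [supp_eq_biUnion ht, sum_biUnion (cls_disjoint m _)]
        exact sum_congr rfl fun i _ => by rw [hcl]
      have h3 := zz_ge m hq hl hg hanti hg0 (tup m S) ht (by rw [hsup]; exact hl')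
      rw [hsup q] at h3
      have h4 : ∏ i ∈ univ.erase m, g (cls (tup m S) i) = ∏ i : Im m, g (S i) := by
        rw [prod_subtype (univ.erase m) (p := fun i => i ≠ m) (fun i => by simp)]
        exact prod_congr rfl fun i _ => by rw [hcl]
      rw [h4, ← hA] at h3
      set x := ∑ i : Im m, ∑ p ∈ S i, q p with hxdef
      have hG0 : 0 ≤ ∏ i : Im m, g (S i) := prod_nonneg fun i _ => hg _
      have h5 : 0 ≤ (∏ i : Im m, g (S i)) * (A * (1 - x)) :=
        mul_nonneg hG0 (mul_nonneg hA0 (by linarith))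
      have h6 := pow_le_pow_left₀ h5 h3 2
      have h7 : ∏ p, Hl m 1 (a p) (tup m S p) = ∏ i : Im m, ∏ p ∈ S i, a p := by
        rw [prod_Hl ht]
        exact prod_congr rfl fun i _ => by rw [hcl]
      rw [hterm]
      simp only
      rw [h7]
      have ha0 : 0 ≤ ∏ i : Im m, ∏ p ∈ S i, a p :=
        prod_nonneg fun i _ => prod_nonneg fun p _ => ha p
      refine le_trans ?_ (mul_le_mul_of_nonneg_left h6 ha0)
      have h8 : 1 - Er m q l (Λ - Λ₀) S ≤ (1 - x) ^ 2 := by
        have E1 : 0 ≤ ∑ i : Im m, ∑ j ∈ univ.erase i,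
            ∑ p, (((if p ∈ S i then 1 else 0) : ℝ) * (if p ∈ S j then 1 else 0)) :=
          sum_nonneg fun i _ => sum_nonneg fun j _ => sum_nonneg fun p _ => by
            split_ifs <;> norm_num
        have E2 : 0 ≤ ∑ i : Im m, (∑ p ∈ S i, l p) / (Λ - Λ₀) :=
          sum_nonneg fun i _ => div_nonneg (sum_nonneg fun p _ => hl p) hΔ.le
        have E3 : ∑ i : Im m, 2 * ∑ p, (if p ∈ S i then q p else 0) = 2 * x := by
          rw [hxdef, mul_sum]
          refine sum_congr rfl fun i _ => ?_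
          rw [← sum_filter]
          simp
        rw [Er, E3]
        nlinarith [sq_nonneg x]
      calc A ^ 2 * ((∏ i, (g (S i) ^ 2 * ∏ p ∈ S i, a p)) * (1 - Er m q l (Λ - Λ₀) S))
          ≤ A ^ 2 * ((∏ i, (g (S i) ^ 2 * ∏ p ∈ S i, a p)) * (1 - x) ^ 2) :=
            mul_le_mul_of_nonneg_left (mul_le_mul_of_nonneg_left h8 hP0) (sq_nonneg _)
        _ = (∏ i : Im m, ∏ p ∈ S i, a p) * ((∏ i : Im m, g (S i)) * (A * (1 - x))) ^ 2 := by
            rw [prod_mul_distrib, prod_pow]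
            ring
    · have h3 := pointwise m hq hl hΔ S hc
      have h4 : A ^ 2 * ((∏ i, (g (S i) ^ 2 * ∏ p ∈ S i, a p)) * (1 - Er m q l (Λ - Λ₀) S)) ≤ 0 :=
        mul_nonpos_of_nonneg_of_nonpos (sq_nonneg _) (mul_nonpos_of_nonneg_of_nonpos hP0 h3)
      refine h4.trans ?_
      split_ifs
      exacts [hterm0 _, le_rfl]
  have h3 := sum_le_sum (s := univ) fun S _ => h2 S
  rw [← sum_filter, filter_mem_eq_inter, univ_inter, ← mul_sum] at h3
  refine le_trans (mul_le_mul_of_nonneg_left ?_ (sq_nonneg A)) h3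
  have h4 : ∑ S : Im m → Finset ι, (∏ i, (g (S i) ^ 2 * ∏ p ∈ S i, a p))
      * (1 - Er m q l (Λ - Λ₀) S)
      = SS a (fun S => g S ^ 2) ^ (k - 1)
        - ∑ S : Im m → Finset ι, (∏ i, (g (S i) ^ 2 * ∏ p ∈ S i, a p)) * Er m q l (Λ - Λ₀) S := by
    simp_rw [mul_sub, mul_one]
    rw [sum_sub_distrib]
    congr 1
    rw [tuple_sum (fun (_ : Im m) T => g T ^ 2 * ∏ p ∈ T, a p), prod_const, card_univ, card_Im]
    rfl
  have h5 := sum_Er hk m ha haq hl hg hanti hΔ
  rw [h4]
  linarith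

end SD2

end Pool.Agent.helper39.MT
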